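import Mathlib

open MeasureTheory Filter Topology Set
open scoped ENNReal NNReal Nat

namespace Pool.Agent.H.MP_62a15f_an

noncomputable def w (x : ℝ) : ℝ := (Int.fract (Real.logb 4 |x|))⁻¹
noncomputable def ρ (i : ℕ × ℕ) : ℝ := 4 ^ i.1 / 4 ^ i.2
noncomputable def a (τ : ℝ) (i : ℕ × ℕ) : ℝ :=
  Real.exp (-10 * τ) * ((4 * τ) ^ i.1 / (i.1)!) * (τ ^ i.2 / (i.2)!)

lemma ρ_pos (i : ℕ × ℕ) : 0 < ρ i := by unfold ρ; positivity

lemma ρ_add (i j : ℕ × ℕ) : ρ (i + j) = ρ i * ρ j := by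
  unfold ρ; simp only [Prod.fst_add, Prod.snd_add, pow_add]; field_simp

lemma w_nonneg (x : ℝ) : 0 ≤ w x := inv_nonneg.2 (Int.fract_nonneg _)

lemma w_meas : Measurable w := by
  unfold w Real.logb
  exact (measurable_fract.comp ((Real.measurable_log.comp measurable_norm).div_const _)).inv

lemma w_inv (i : ℕ × ℕ) (x : ℝ) : w (ρ i * x) = w x := by
  rcases eq_or_ne x 0 with rfl | hx
  · simp
  unfold w
  have h4 : Real.logb 4 4 = 1 := Real.logb_self_eq_one (by norm_num)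
  have : Real.logb 4 |ρ i * x| = (((i.1 : ℤ) - (i.2 : ℤ) : ℤ) : ℝ) + Real.logb 4 |x| := by
    rw [abs_mul, abs_of_pos (ρ_pos i), Real.logb_mul (ρ_pos i).ne' (abs_ne_zero.2 hx)]
    unfold ρ
    rw [Real.logb_div (by positivity) (by positivity), Real.logb_pow, Real.logb_pow, h4]
    push_cast; ring
  rw [this, Int.fract_intCast_add]

lemma w_big {ε : ℝ} (h1 : ε < 1) {x : ℝ} (hx : x ∈ Ioo 1 ((4:ℝ) ^ ε)) : ε⁻¹ ≤ w x := by
  have hx0 : 0 < x := lt_trans one_pos hx.1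
  have h2 : 0 < Real.logb 4 x := Real.logb_pos (by norm_num) hx.1
  have h3 : Real.logb 4 x < ε := by
    rw [Real.logb_lt_iff_lt_rpow (by norm_num) hx0]; exact hx.2
  unfold w
  rw [abs_of_pos hx0, Int.fract_eq_self.2 ⟨h2.le, h3.trans h1⟩]
  exact inv_anti₀ h2 h3.le

lemma a_nonneg {τ : ℝ} (h : 0 ≤ τ) (i : ℕ × ℕ) : 0 ≤ a τ i := by unfold a; positivity

lemma hs_exp (x : ℝ) : HasSum (fun n : ℕ => x ^ n / n !) (Real.exp x) := by
  rw [Real.exp_eq_exp_ℝ]; exact NormedSpace.expSeries_div_hasSum_exp x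

lemma hs_a {τ x y : ℝ} (h : 0 ≤ τ) (hx : 0 ≤ x) (hy : 0 ≤ y) :
    HasSum (fun i : ℕ × ℕ => a τ i * (x ^ i.1 * y ^ i.2))
      (Real.exp (-10 * τ + 4 * τ * x + τ * y)) := by
  have h1 := hs_exp (4 * τ * x)
  have h2 := hs_exp (τ * y)
  have h3 := h1.mul h2 (h1.summable.mul_of_nonneg h2.summable
    (fun n => by positivity) (fun n => by positivity))
  have h4 := h3.mul_left (Real.exp (-10 * τ))
  rw [← Real.exp_add, ← Real.exp_add, ← add_assoc] at h4
  refine h4.congr_fun ?_ |>.congr_fun (fun _ => rfl)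
  intro i
  unfold a
  simp only [mul_pow]; ring

lemma hs1 {τ : ℝ} (h : 0 ≤ τ) : HasSum (a τ) (Real.exp (-5 * τ)) := by
  have := hs_a h zero_le_one zero_le_one
  simp only [one_pow, mul_one] at this
  convert this using 2; ring

lemma hs2 {τ : ℝ} (h : 0 ≤ τ) : HasSum (fun i => a τ i * (ρ i)⁻¹) (Real.exp (-5 * τ)) := by
  have := hs_a (x := 4⁻¹) (y := 4) h (by norm_num) (by norm_num)
  convert this using 2
  · unfold ρ; rw [inv_pow]; field_simp
  · ring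

noncomputable def σ (i : ℕ × ℕ) : ℝ := 2 ^ i.1 / 2 ^ i.2

lemma σ_pos (i : ℕ × ℕ) : 0 < σ i := by unfold σ; positivity

lemma σ_sq (i : ℕ × ℕ) : σ i * σ i = ρ i := by
  unfold σ ρ
  have : ∀ n : ℕ, (4:ℝ) ^ n = 2 ^ n * 2 ^ n := fun n => by rw [← mul_pow]; norm_num
  rw [this, this]; field_simp

lemma hs3 {τ : ℝ} (h : 0 ≤ τ) : HasSum (fun i => a τ i * (σ i)⁻¹) (Real.exp (-6 * τ)) := by
  have := hs_a (x := 2⁻¹) (y := 2) h (by norm_num) (by norm_num)
  convert this using 2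
  · unfold σ; rw [inv_pow]; field_simp
  · ring

lemma binom (s t : ℝ) (n : ℕ) :
    ∑ q ∈ Finset.HasAntidiagonal.antidiagonal n, s ^ q.1 / (q.1)! * (t ^ q.2 / (q.2)!) = (s + t) ^ n / n ! := by
  rw [(Commute.all s t).add_pow', Finset.sum_div]
  refine Finset.sum_congr rfl fun q hq => ?_
  have h := Finset.HasAntidiagonal.mem_antidiagonal.1 hq
  have h2 : (n.choose q.1 : ℝ) * (q.1)! * (q.2)! = n ! := by
    have := Nat.add_choose_mul_factorial_mul_factorial q.2 q.1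
    rw [add_comm, h] at this
    have h3 : n.choose q.1 * (q.1)! * (q.2)! = n ! := by rw [← this]; ring
    exact_mod_cast h3
  have h5 : (n.choose q.1 : ℝ) ≠ 0 := by
    intro h0; rw [h0] at h2; simp at h2; exact absurd h2.symm (by exact_mod_cast n.factorial_ne_zero)
  rw [nsmul_eq_mul, ← h2]; field_simp

def eqv : (Σ k : ℕ × ℕ, (Finset.HasAntidiagonal.antidiagonal k.1 × Finset.HasAntidiagonal.antidiagonal k.2)) ≃
    (ℕ × ℕ) × (ℕ × ℕ) where
  toFun s := ((s.2.1.1.1, s.2.2.1.1), (s.2.1.1.2, s.2.2.1.2))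
  invFun p := ⟨(p.1.1 + p.2.1, p.1.2 + p.2.2),
    (⟨(p.1.1, p.2.1), Finset.HasAntidiagonal.mem_antidiagonal.2 rfl⟩, ⟨(p.1.2, p.2.2), Finset.HasAntidiagonal.mem_antidiagonal.2 rfl⟩)⟩
  left_inv := by
    rintro ⟨⟨k1, k2⟩, ⟨⟨b, c⟩, h1⟩, ⟨⟨d, e⟩, h2⟩⟩
    obtain rfl := Finset.HasAntidiagonal.mem_antidiagonal.1 h1
    obtain rfl := Finset.HasAntidiagonal.mem_antidiagonal.1 h2
    rfl
  right_inv p := rfl

lemma fib (s t : ℝ) (k : ℕ × ℕ) :
    ∑ q : (Finset.HasAntidiagonal.antidiagonal k.1 × Finset.HasAntidiagonal.antidiagonal k.2),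
      a s (q.1.1.1, q.2.1.1) * a t (q.1.1.2, q.2.1.2) = a (s + t) k := by
  rw [Fintype.sum_prod_type]
  have h1 := binom (4 * s) (4 * t) k.1
  have h2 := binom s t k.2
  rw [← Finset.sum_coe_sort] at h1 h2
  have : a (s + t) k = Real.exp (-10 * s) * Real.exp (-10 * t) *
      ((4 * s + 4 * t) ^ k.1 / (k.1)!) * ((s + t) ^ k.2 / (k.2)!) := by
    unfold a; rw [← Real.exp_add]; congr 3 <;> ring
  rw [this, ← h1, ← h2, mul_assoc, Finset.sum_mul_sum, Finset.mul_sum]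
  refine Finset.sum_congr rfl fun q _ => ?_
  rw [Finset.mul_sum]
  refine Finset.sum_congr rfl fun r _ => ?_
  unfold a; ring

lemma eqv_add (k : ℕ × ℕ) (q : Finset.HasAntidiagonal.antidiagonal k.1 × Finset.HasAntidiagonal.antidiagonal k.2) :
    (eqv ⟨k, q⟩).1 + (eqv ⟨k, q⟩).2 = k := by
  have h1 := Finset.HasAntidiagonal.mem_antidiagonal.1 q.1.2
  have h2 := Finset.HasAntidiagonal.mem_antidiagonal.1 q.2.2
  exact Prod.ext h1 h2

/-- pointwise semigroup law -/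
lemma conv {s t : ℝ} (hs : 0 ≤ s) (ht : 0 ≤ t) (G : ℕ × ℕ → ℂ)
    (hG : Summable fun k => a (s + t) k * ‖G k‖) :
    ∑' i, (a s i : ℂ) * ∑' j, (a t j : ℂ) * G (i + j) = ∑' k, (a (s + t) k : ℂ) * G k := by
  have hn : Summable fun p : (ℕ × ℕ) × (ℕ × ℕ) => a s p.1 * a t p.2 * ‖G (p.1 + p.2)‖ := by
    rw [← eqv.summable_iff, summable_sigma_of_nonneg]
    · refine ⟨fun k => Summable.of_finite, hG.congr fun k => ?_⟩
      rw [tsum_fintype, ← fib, Finset.sum_mul]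
      refine Finset.sum_congr rfl fun q _ => ?_
      simp only [Function.comp, eqv_add]; rfl
    · intro p
      exact mul_nonneg (mul_nonneg (a_nonneg hs _) (a_nonneg ht _)) (norm_nonneg _)
  have hc : Summable fun p : (ℕ × ℕ) × (ℕ × ℕ) => (a s p.1 : ℂ) * ((a t p.2 : ℂ) * G (p.1 + p.2)) := by
    refine Summable.of_norm (hn.congr fun p => ?_)
    rw [norm_mul, norm_mul, Complex.norm_real, Complex.norm_real, Real.norm_of_nonneg (a_nonneg hs _),
      Real.norm_of_nonneg (a_nonneg ht _), mul_assoc]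
  have e1 : ∑' i, (a s i : ℂ) * ∑' j, (a t j : ℂ) * G (i + j) =
      ∑' p : (ℕ × ℕ) × (ℕ × ℕ), (a s p.1 : ℂ) * ((a t p.2 : ℂ) * G (p.1 + p.2)) := by
    rw [hc.tsum_prod]
    exact tsum_congr fun i => tsum_mul_left.symm
  rw [e1, ← eqv.tsum_eq]
  refine (Summable.tsum_sigma' (fun k => Summable.of_finite) (eqv.summable_iff.2 hc)).trans ?_
  refine tsum_congr fun k => ?_
  rw [tsum_fintype, ← fib]; push_cast; rw [Finset.sum_mul]
  refine Finset.sum_congr rfl fun q _ => ?_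
  simp only [Function.comp, eqv_add, ← mul_assoc]; rfl

end Pool.Agent.H.MP_62a15f_an
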