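import Pool.Agent.H.MP_62a15f_an.A

open MeasureTheory Filter Topology Set
open scoped ENNReal NNReal Nat

namespace Pool.Agent.H.MP_62a15f_an

lemma qmp {r : ℝ} (hr : 0 < r) :
    Measure.QuasiMeasurePreserving (fun x : ℝ => r * x) volume volume :=
  ⟨measurable_const_mul r, by
    rw [Real.map_volume_mul_left hr.ne']; exact Measure.smul_absolutelyContinuous⟩

lemma lint_dil {r : ℝ} (hr : 0 < r) (g : ℝ → ℝ≥0∞) :
    ∫⁻ x, g (r * x) = ENNReal.ofReal r⁻¹ * ∫⁻ x, g x := by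
  have h := (measurableEmbedding_mulLeft₀ hr.ne').lintegral_map (μ := volume) g
  rw [← h, Real.map_volume_mul_left hr.ne', lintegral_smul_measure, abs_of_pos (inv_pos.2 hr),
    smul_eq_mul]

noncomputable def op (b : ℝ → ℕ × ℕ → ℝ) (f : ℝ → ℂ) (x : ℝ) : ℂ :=
  ∑' i, (b (w x) i : ℂ) * f (ρ i * x)

noncomputable def maj (b : ℝ → ℕ × ℕ → ℝ) (g : ℝ → ℝ≥0∞) (x : ℝ) : ℝ≥0∞ :=
  ∑' i, ENNReal.ofReal (b (w x) i) * g (ρ i * x)

structure Good (b : ℝ → ℕ × ℕ → ℝ) (β : ℝ → ℝ) : Prop where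
  meas : ∀ i, Measurable fun v => b v i
  nn : ∀ v, 0 ≤ v → ∀ i, 0 ≤ b v i
  le1 : ∀ v, 0 ≤ v → ∑' i, ENNReal.ofReal (b v i) ≤ 1
  hs : ∀ v, 0 ≤ v → HasSum (fun i => b v i * (ρ i)⁻¹) (β v)
  β1 : ∀ v, 0 ≤ v → β v ≤ 1

variable {b : ℝ → ℕ × ℕ → ℝ} {β : ℝ → ℝ}

lemma lint_w (i : ℕ × ℕ) (c : ℝ → ℝ≥0∞) (g : ℝ → ℝ≥0∞) :
    ∫⁻ x, c (w x) * g (ρ i * x) = ∫⁻ x, ENNReal.ofReal (ρ i)⁻¹ * (c (w x) * g x) := by
  have := lint_dil (ρ_pos i) (fun x => c (w x) * g x)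
  simp only [w_inv] at this
  rw [this, lintegral_const_mul' _ _ ENNReal.ofReal_ne_top]

lemma ofReal_hs {ι : Type*} {f : ι → ℝ} {s : ℝ} (h0 : ∀ i, 0 ≤ f i) (h : HasSum f s) :
    ∑' i, ENNReal.ofReal (f i) = ENNReal.ofReal s := by
  rw [← ENNReal.ofReal_tsum_of_nonneg h0 h.summable, h.tsum_eq]

lemma maj_lint (hb : Good b β) {g : ℝ → ℝ≥0∞} (hg : AEMeasurable g volume) :
    ∫⁻ x, maj b g x = ∫⁻ x, ENNReal.ofReal (β (w x)) * g x := by
  have hm : ∀ i, Measurable fun x => ENNReal.ofReal (b (w x) i) := fun i =>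
    ((hb.meas i).comp w_meas).ennreal_ofReal
  unfold maj
  have h1 : ∀ i, AEMeasurable (fun x => ENNReal.ofReal (b (w x) i) * g (ρ i * x)) volume := fun i =>
    (hm i).aemeasurable.mul (hg.comp_quasiMeasurePreserving (qmp (ρ_pos i)))
  have h2 : ∀ i, AEMeasurable
      (fun x => ENNReal.ofReal (ρ i)⁻¹ * (ENNReal.ofReal (b (w x) i) * g x)) volume := fun i =>
    ((hm i).aemeasurable.mul hg).const_mul _
  rw [lintegral_tsum h1]
  rw [tsum_congr fun i => lint_w i (fun v => ENNReal.ofReal (b v i)) g,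
    ← lintegral_tsum h2]
  refine lintegral_congr fun x => ?_
  rw [← ofReal_hs (fun i => mul_nonneg (hb.nn _ (w_nonneg x) i) (inv_pos.2 (ρ_pos i)).le)
    (hb.hs _ (w_nonneg x)), ← ENNReal.tsum_mul_right]
  refine tsum_congr fun i => ?_
  rw [ENNReal.ofReal_mul (hb.nn _ (w_nonneg x) i)]; ring

lemma maj_pow (hb : Good b β) (g : ℝ → ℝ≥0∞) {p : ℝ} (hp : 1 ≤ p) (x : ℝ) :
    maj b g x ^ p ≤ maj b (fun y => g y ^ p) x := by
  have hp0 : 0 < p := by linarith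
  have : maj b g x ≤ maj b (fun y => g y ^ p) x ^ p⁻¹ := by
    unfold maj
    rw [ENNReal.tsum_eq_iSup_sum]
    refine iSup_le fun s => (ENNReal.inner_le_weight_mul_Lp_of_nonneg s hp _ _).trans ?_
    rw [← one_mul ((∑' i, _) ^ p⁻¹)]
    refine mul_le_mul' (ENNReal.rpow_le_one ((ENNReal.sum_le_tsum s).trans (hb.le1 _ (w_nonneg x)))
      (sub_nonneg.2 (inv_le_one_of_one_le₀ hp))) ?_
    exact ENNReal.rpow_le_rpow (ENNReal.sum_le_tsum s) (inv_pos.2 hp0).le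
  calc maj b g x ^ p ≤ (maj b (fun y => g y ^ p) x ^ p⁻¹) ^ p := ENNReal.rpow_le_rpow this hp0.le
    _ = _ := by rw [← ENNReal.rpow_mul, inv_mul_cancel₀ hp0.ne', ENNReal.rpow_one]

lemma enorm_op (hb : Good b β) (f : ℝ → ℂ) (x : ℝ) :
    ‖op b f x‖ₑ ≤ maj b (fun y => ‖f y‖ₑ) x := by
  refine enorm_tsum_le_tsum_enorm.trans (le_of_eq (tsum_congr fun i => ?_))
  rw [enorm_mul, ← ofReal_norm (b (w x) i : ℂ), Complex.norm_real,
    Real.norm_of_nonneg (hb.nn _ (w_nonneg x) i)]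

lemma maj_lp (hb : Good b β) {f : ℝ → ℂ} (hf : AEStronglyMeasurable f volume) {p : ℝ} (hp : 1 ≤ p) :
    ∫⁻ x, maj b (fun y => ‖f y‖ₑ) x ^ p ≤ ∫⁻ x, ENNReal.ofReal (β (w x)) * ‖f x‖ₑ ^ p := by
  rw [← maj_lint hb (hf.enorm.pow_const p)]
  exact lintegral_mono fun x => maj_pow hb _ hp x

lemma op_lp (hb : Good b β) {f : ℝ → ℂ} (hf : AEStronglyMeasurable f volume) {p : ℝ} (hp : 1 ≤ p) :
    ∫⁻ x, ‖op b f x‖ₑ ^ p ≤ ∫⁻ x, ENNReal.ofReal (β (w x)) * ‖f x‖ₑ ^ p :=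
  le_trans (lintegral_mono fun x => ENNReal.rpow_le_rpow (enorm_op hb f x) (by linarith))
    (maj_lp hb hf hp)

lemma β_le (hb : Good b β) (g : ℝ → ℝ≥0∞) :
    ∫⁻ x, ENNReal.ofReal (β (w x)) * g x ≤ ∫⁻ x, g x :=
  lintegral_mono fun x => by
    calc _ ≤ 1 * g x := mul_le_mul_left (ENNReal.ofReal_le_one.2 (hb.β1 _ (w_nonneg x))) _
      _ = _ := one_mul _

lemma maj_top (hb : Good b β) (f : ℝ → ℂ) :
    ∀ᵐ x, maj b (fun y => ‖f y‖ₑ) x ≤ eLpNormEssSup f volume := by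
  have h : ∀ᵐ x, ∀ i, ‖f (ρ i * x)‖ₑ ≤ eLpNormEssSup f volume :=
    ae_all_iff.2 fun i => (qmp (ρ_pos i)).ae (ae_le_eLpNormEssSup (f := f))
  filter_upwards [h] with x hx
  calc maj b (fun y => ‖f y‖ₑ) x ≤ ∑' i, ENNReal.ofReal (b (w x) i) * eLpNormEssSup f volume :=
        ENNReal.tsum_le_tsum fun i => mul_le_mul_right (hx i) _
    _ ≤ 1 * eLpNormEssSup f volume := by
        rw [ENNReal.tsum_mul_right]; exact mul_le_mul_left (hb.le1 _ (w_nonneg x)) _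
    _ = _ := one_mul _

lemma toReal_one_le {p : ℝ≥0∞} (hp : 1 ≤ p) (hp' : p ≠ ∞) : 1 ≤ p.toReal := by
  simpa using ENNReal.toReal_mono hp' hp

lemma op_eLp (hb : Good b β) {f : ℝ → ℂ} (hf : AEStronglyMeasurable f volume) {p : ℝ≥0∞}
    (hp : 1 ≤ p) : eLpNorm (op b f) p volume ≤ eLpNorm f p volume := by
  rcases eq_or_ne p ∞ with rfl | hp'
  · simp only [eLpNorm_exponent_top]
    refine eLpNormEssSup_le_of_ae_enorm_bound ?_
    filter_upwards [maj_top hb f] with x hx using (enorm_op hb f x).trans hx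
  · have h0 : p ≠ 0 := (lt_of_lt_of_le one_pos hp).ne'
    rw [eLpNorm_eq_lintegral_rpow_enorm_toReal h0 hp', eLpNorm_eq_lintegral_rpow_enorm_toReal h0 hp']
    exact ENNReal.rpow_le_rpow ((op_lp hb hf (toReal_one_le hp hp')).trans (β_le hb _)) (by positivity)

lemma op_meas (hb : Good b β) {f : ℝ → ℂ} (hf : AEStronglyMeasurable f volume) :
    AEStronglyMeasurable (op b f) volume := by
  refine (AEMeasurable.tsum fun i => ?_).aestronglyMeasurable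
  exact (Complex.measurable_ofReal.comp ((hb.meas i).comp w_meas)).aemeasurable.mul
    (hf.aemeasurable.comp_quasiMeasurePreserving (qmp (ρ_pos i)))

lemma ae_sum (hb : Good b β) {f : ℝ → ℂ} {p : ℝ≥0∞} (hp : 1 ≤ p) (hf : MemLp f p volume) :
    ∀ᵐ x, Summable fun i => b (w x) i * ‖f (ρ i * x)‖ := by
  have h : ∀ᵐ x, maj b (fun y => ‖f y‖ₑ) x < ∞ := by
    rcases eq_or_ne p ∞ with rfl | hp'
    · filter_upwards [maj_top hb f] with x hx
      exact hx.trans_lt (by simpa using hf.2)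
    · have h0 : p ≠ 0 := (lt_of_lt_of_le one_pos hp).ne'
      have h1 := toReal_one_le hp hp'
      have h2 := (maj_lp hb hf.1 h1).trans (β_le hb _)
      have h3 := lintegral_rpow_enorm_lt_top_of_eLpNorm_lt_top h0 hp' hf.2
      have hm : AEMeasurable (maj b (fun y => ‖f y‖ₑ)) volume :=
        AEMeasurable.tsum fun i => ((hb.meas i).comp w_meas).ennreal_ofReal.aemeasurable.mul
          (hf.1.enorm.comp_quasiMeasurePreserving (qmp (ρ_pos i)))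
      filter_upwards [ae_lt_top' (hm.pow_const _) (h2.trans_lt h3).ne] with x hx
      exact (ENNReal.rpow_lt_top_iff_of_pos (by linarith)).1 hx
  filter_upwards [h] with x hx
  refine (ENNReal.summable_toReal hx.ne).congr fun i => ?_
  rw [ENNReal.toReal_mul, ENNReal.toReal_ofReal (hb.nn _ (w_nonneg x) i), toReal_enorm]

lemma sum_of (hb : Good b β) {f : ℝ → ℂ} {x : ℝ}
    (h : Summable fun i => b (w x) i * ‖f (ρ i * x)‖) :
    Summable fun i => (b (w x) i : ℂ) * f (ρ i * x) := by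
  refine Summable.of_norm (h.congr fun i => ?_)
  rw [norm_mul, Complex.norm_real, Real.norm_of_nonneg (hb.nn _ (w_nonneg x) i)]

lemma ae_dil {E : Type*} {f g : ℝ → E} (h : f =ᵐ[volume] g) : ∀ᵐ x, ∀ i, f (ρ i * x) = g (ρ i * x) :=
  ae_all_iff.2 fun i => (qmp (ρ_pos i)).ae h

lemma op_congr {f g : ℝ → ℂ} (h : f =ᵐ[volume] g) : op b f =ᵐ[volume] op b g := by
  filter_upwards [ae_dil h] with x hx
  unfold op; simp only [hx]

lemma mk_clm (p : ℝ≥0∞) [Fact (1 ≤ p)] (F : (ℝ → ℂ) → ℝ → ℂ) (C : ℝ≥0)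
    (h1 : ∀ f : Lp ℂ p (volume : Measure ℝ), AEStronglyMeasurable (F f) volume)
    (h2 : ∀ f : Lp ℂ p (volume : Measure ℝ), eLpNorm (F f) p volume ≤ C * eLpNorm f p volume)
    (h3 : ∀ f g : Lp ℂ p (volume : Measure ℝ), F ⇑(f + g) =ᵐ[volume] F f + F g)
    (h4 : ∀ (c : ℂ) (f : Lp ℂ p (volume : Measure ℝ)), F ⇑(c • f) =ᵐ[volume] c • F f) :
    ∃ T : Lp ℂ p (volume : Measure ℝ) →L[ℂ] Lp ℂ p (volume : Measure ℝ),
      ‖T‖ ≤ C ∧ ∀ f, T f =ᵐ[volume] F f := by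
  have hm : ∀ f : Lp ℂ p (volume : Measure ℝ), MemLp (F f) p volume := fun f =>
    ⟨h1 f, (h2 f).trans_lt (ENNReal.mul_lt_top ENNReal.coe_lt_top (Lp.eLpNorm_lt_top f))⟩
  let L : Lp ℂ p (volume : Measure ℝ) →ₗ[ℂ] Lp ℂ p (volume : Measure ℝ) :=
    { toFun := fun f => (hm f).toLp
      map_add' := fun f g => by
        rw [← MemLp.toLp_add]; exact MemLp.toLp_congr _ _ (h3 f g)
      map_smul' := fun c f => by
        rw [RingHom.id_apply, ← MemLp.toLp_const_smul]; exact MemLp.toLp_congr _ _ (h4 c f) }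
  have hL : ∀ f, ‖L f‖ ≤ C * ‖f‖ := fun f => by
    change ‖(hm f).toLp‖ ≤ _
    rw [Lp.norm_toLp, Lp.norm_def, ← ENNReal.coe_toReal, ← ENNReal.toReal_mul]
    exact ENNReal.toReal_mono (ENNReal.mul_ne_top ENNReal.coe_ne_top (Lp.eLpNorm_ne_top f)) (h2 f)
  exact ⟨L.mkContinuous C hL, LinearMap.mkContinuous_norm_le _ C.2 _, fun f => (hm f).coeFn_toLp⟩

lemma ex_op (hb : Good b β) (p : ℝ≥0∞) [hp : Fact (1 ≤ p)] :
    ∃ T : Lp ℂ p (volume : Measure ℝ) →L[ℂ] Lp ℂ p (volume : Measure ℝ),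
      ‖T‖ ≤ 1 ∧ ∀ f, T f =ᵐ[volume] op b f := by
  refine mk_clm p (op b) 1 (fun f => op_meas hb (Lp.aestronglyMeasurable f))
    (fun f => by simpa using op_eLp hb (Lp.aestronglyMeasurable f) hp.out) (fun f g => ?_)
    (fun c f => ?_)
  · filter_upwards [op_congr (b := b) (Lp.coeFn_add f g), ae_sum hb hp.out (Lp.memLp f),
      ae_sum hb hp.out (Lp.memLp g)] with x h1 h2 h3
    rw [h1, Pi.add_apply]; unfold op
    rw [← (sum_of hb h2).tsum_add (sum_of hb h3)]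
    exact tsum_congr fun i => by simp [mul_add]
  · filter_upwards [op_congr (b := b) (Lp.coeFn_smul c f)] with x h1
    rw [h1, Pi.smul_apply, smul_eq_mul]; unfold op
    rw [← tsum_mul_left]
    exact tsum_congr fun i => by simp only [Pi.smul_apply, smul_eq_mul]; ring

end Pool.Agent.H.MP_62a15f_an
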