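import Pool.Agent.H.MP_62a15f_an.B

open MeasureTheory Filter Topology Set
open scoped ENNReal NNReal Nat ComplexOrder

namespace Pool.Agent.H.MP_62a15f_an

noncomputable def A (t : ℝ) (v : ℝ) (i : ℕ × ℕ) : ℝ := a (t * v) i

lemma a_meas (t : ℝ) (i : ℕ × ℕ) : Measurable fun v => a (t * v) i := by
  unfold a; fun_prop

lemma exp_le1 {c τ : ℝ} (hc : 0 ≤ c) (h : 0 ≤ τ) : Real.exp (-c * τ) ≤ 1 :=
  Real.exp_le_one_iff.2 (by nlinarith)

lemma goodA {t : ℝ} (ht : 0 ≤ t) : Good (A t) (fun v => Real.exp (-5 * (t * v))) where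
  meas := a_meas t
  nn v hv i := a_nonneg (mul_nonneg ht hv) i
  le1 v hv := by
    unfold A
    rw [ofReal_hs (a_nonneg (mul_nonneg ht hv)) (hs1 (mul_nonneg ht hv))]
    exact ENNReal.ofReal_le_one.2 (exp_le1 (by norm_num) (mul_nonneg ht hv))
  hs v hv := hs2 (mul_nonneg ht hv)
  β1 v hv := exp_le1 (by norm_num) (mul_nonneg ht hv)

open Classical in
noncomputable def As (s : Finset (ℕ × ℕ)) (t : ℝ) (v : ℝ) (i : ℕ × ℕ) : ℝ :=
  if i ∈ s then 0 else a (t * v) i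

lemma goodAs (s : Finset (ℕ × ℕ)) {t : ℝ} (ht : 0 ≤ t) :
    Good (As s t) (fun v => Real.exp (-5 * (t * v)) - ∑ i ∈ s, a (t * v) i * (ρ i)⁻¹) where
  meas i := by
    unfold As; split_ifs
    · exact measurable_const
    · exact a_meas t i
  nn v hv i := by
    unfold As; split_ifs
    · exact le_rfl
    · exact a_nonneg (mul_nonneg ht hv) i
  le1 v hv := by
    refine le_trans (ENNReal.tsum_le_tsum fun i => ENNReal.ofReal_le_ofReal ?_) ((goodA ht).le1 v hv)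
    unfold As A; split_ifs
    · exact a_nonneg (mul_nonneg ht hv) i
    · exact le_rfl
  hs v hv := by
    classical
    have h1 := hs2 (mul_nonneg ht hv)
    have h2 : HasSum (fun i => if i ∈ s then a (t * v) i * (ρ i)⁻¹ else 0)
        (∑ i ∈ s, if i ∈ s then a (t * v) i * (ρ i)⁻¹ else 0) :=
      hasSum_sum_of_ne_finset_zero fun i hi => if_neg hi
    rw [Finset.sum_congr rfl fun i hi => if_pos hi] at h2
    refine (h1.sub h2).congr_fun fun i => ?_
    unfold As; split_ifs <;> simp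
  β1 v hv := by
    have := exp_le1 (c := 5) (by norm_num) (mul_nonneg ht hv)
    have h2 : 0 ≤ ∑ i ∈ s, a (t * v) i * (ρ i)⁻¹ := Finset.sum_nonneg fun i _ =>
      mul_nonneg (a_nonneg (mul_nonneg ht hv) i) (inv_pos.2 (ρ_pos i)).le
    linarith

lemma op_split (s : Finset (ℕ × ℕ)) {t : ℝ} (ht : 0 ≤ t) {f : ℝ → ℂ} {x : ℝ}
    (h : Summable fun i => A t (w x) i * ‖f (ρ i * x)‖) :
    op (A t) f x = ∑ i ∈ s, (a (t * w x) i : ℂ) * f (ρ i * x) + op (As s t) f x := by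
  classical
  have h1 := (sum_of (goodA ht) h).hasSum
  have h2 : HasSum (fun i => if i ∈ s then (a (t * w x) i : ℂ) * f (ρ i * x) else 0)
      (∑ i ∈ s, if i ∈ s then (a (t * w x) i : ℂ) * f (ρ i * x) else 0) :=
    hasSum_sum_of_ne_finset_zero fun i hi => if_neg hi
  rw [Finset.sum_congr rfl fun i hi => if_pos hi] at h2
  have h3 : HasSum (fun i => (As s t (w x) i : ℂ) * f (ρ i * x)) _ :=
    (h1.sub h2).congr_fun fun i => by unfold As A; split_ifs <;> simp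
  unfold op
  rw [h3.tsum_eq]; ring

lemma a00 (τ : ℝ) : a τ (0, 0) = Real.exp (-10 * τ) := by simp [a]
lemma a10 (τ : ℝ) : a τ (1, 0) = Real.exp (-10 * τ) * (4 * τ) := by simp [a]
lemma a01 (τ : ℝ) : a τ (0, 1) = Real.exp (-10 * τ) * τ := by simp [a]
lemma ρ00 : ρ (0, 0) = 1 := by simp [ρ]
lemma ρ10 : ρ (1, 0) = 4 := by simp [ρ]
lemma ρ01 : ρ (0, 1) = 4⁻¹ := by simp [ρ]

lemma op_zero (f : ℝ → ℂ) (x : ℝ) : op (A 0) f x = f x := by
  unfold op
  rw [tsum_eq_single (0, 0)]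
  · simp [A, a00, ρ00]
  · rintro ⟨j, k⟩ h
    have : a 0 (j, k) = 0 := by
      unfold a
      rcases Nat.eq_zero_or_pos j with rfl | hj
      · rcases Nat.eq_zero_or_pos k with rfl | hk
        · exact absurd rfl h
        · simp [hk.ne']
      · simp [hj.ne']
    simp [A, this]

lemma op_op {s t : ℝ} (hs : 0 ≤ s) (ht : 0 ≤ t) {f : ℝ → ℂ} {x : ℝ}
    (h : Summable fun i => A (s + t) (w x) i * ‖f (ρ i * x)‖) :
    op (A s) (op (A t) f) x = op (A (s + t)) f x := by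
  unfold op A at *
  simp only [w_inv, add_mul] at *
  rw [← conv (mul_nonneg hs (w_nonneg x)) (mul_nonneg ht (w_nonneg x)) (fun k => f (ρ k * x)) h]
  refine tsum_congr fun i => ?_
  congr 1
  refine tsum_congr fun j => ?_
  rw [ρ_add, ← mul_assoc, mul_comm (ρ j)]

lemma op_pos {t : ℝ} (ht : 0 ≤ t) {f : ℝ → ℂ} (hf : ∀ᵐ x, 0 ≤ f x) : ∀ᵐ x, 0 ≤ op (A t) f x := by
  have h : ∀ᵐ x, ∀ i, 0 ≤ f (ρ i * x) := ae_all_iff.2 fun i => (qmp (ρ_pos i)).ae hf
  filter_upwards [h] with x hx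
  exact tsum_nonneg fun i =>
    mul_nonneg (Complex.zero_le_real.2 ((goodA ht).nn _ (w_nonneg x) i)) (hx i)

/-- dominated convergence with multipliers depending on `t * w x` -/
lemma dct (ψ : ℝ → ℝ) (hψ : Measurable ψ) (C : ℝ) (hC : ∀ τ, 0 ≤ τ → ψ τ ≤ C)
    (h0 : Tendsto ψ (𝓝[≥] 0) (𝓝 0)) {g : ℝ → ℝ≥0∞} (hg : AEMeasurable g volume)
    (hfin : ∫⁻ x, g x ≠ ∞) :
    Tendsto (fun t => ∫⁻ x, ENNReal.ofReal (ψ (t * w x)) * g x) (𝓝[≥] 0) (𝓝 0) := by
  have := tendsto_lintegral_filter_of_dominated_convergence' (μ := volume) (l := 𝓝[≥] (0:ℝ))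
    (F := fun t x => ENNReal.ofReal (ψ (t * w x)) * g x) (f := fun _ => 0)
    (fun x => ENNReal.ofReal C * g x) ?_ ?_ ?_ ?_
  · simpa using this
  · exact Eventually.of_forall fun t =>
      (hψ.comp (w_meas.const_mul t)).ennreal_ofReal.aemeasurable.mul hg
  · filter_upwards [self_mem_nhdsWithin] with t ht
    exact ae_of_all _ fun x => mul_le_mul_left
      (ENNReal.ofReal_le_ofReal (hC _ (mul_nonneg ht (w_nonneg x)))) _
  · rw [lintegral_const_mul' _ _ ENNReal.ofReal_ne_top]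
    exact ENNReal.mul_ne_top ENNReal.ofReal_ne_top hfin
  · filter_upwards [ae_lt_top' hg hfin] with x hx
    have h1 : Tendsto (fun t => t * w x) (𝓝[≥] 0) (𝓝[≥] 0) := by
      refine tendsto_nhdsWithin_iff.2 ⟨?_, ?_⟩
      · have : Tendsto (fun t : ℝ => t * w x) (𝓝 0) (𝓝 (0 * w x)) :=
          (continuous_id.mul continuous_const).tendsto 0
        rw [zero_mul] at this
        exact this.mono_left nhdsWithin_le_nhds
      · filter_upwards [self_mem_nhdsWithin] with t ht using mul_nonneg ht (w_nonneg x)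
    have h2 := ENNReal.tendsto_ofReal (h0.comp h1)
    have h3 := ENNReal.Tendsto.mul_const (b := g x) h2 (Or.inr hx.ne)
    simpa using h3

lemma slope_lim (c v : ℝ) :
    Tendsto (fun t : ℝ => t⁻¹ * (1 - Real.exp (-c * (t * v)))) (𝓝[>] 0) (𝓝 (c * v)) := by
  have h : HasDerivAt (fun t : ℝ => -Real.exp (-c * (t * v))) (c * v) 0 := by
    have h1 : HasDerivAt (fun t : ℝ => -c * (t * v)) (-c * v) 0 := by
      simpa using ((hasDerivAt_id (0:ℝ)).mul_const v).const_mul (-c)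
    exact (h1.exp.neg).congr_deriv (by simp)
  refine h.tendsto_slope_zero_right.congr fun t => ?_
  simp [add_comm, sub_eq_add_neg]

lemma fatou (c : ℝ) {g : ℝ → ℝ≥0∞} (hg : AEMeasurable g volume) (hfin : ∀ x, g x ≠ ∞) {M : ℝ≥0∞}
    (h : ∀ᶠ t in 𝓝[>] (0:ℝ),
      ∫⁻ x, ENNReal.ofReal (t⁻¹ * (1 - Real.exp (-c * (t * w x)))) * g x ≤ M) :
    ∫⁻ x, ENNReal.ofReal (c * w x) * g x ≤ M := by
  have hu : Tendsto (fun n : ℕ => (1:ℝ) / (n + 1)) atTop (𝓝[>] 0) :=
    tendsto_nhdsWithin_iff.2 ⟨tendsto_one_div_add_atTop_nhds_zero_nat,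
      Eventually.of_forall fun n => by simp only [mem_Ioi]; positivity⟩
  have h1 := lintegral_liminf_le' (μ := volume) (u := atTop) (f := fun (n : ℕ) x =>
    ENNReal.ofReal (((1:ℝ) / (n + 1))⁻¹ * (1 - Real.exp (-c * ((1:ℝ) / (n + 1) * w x)))) * g x)
    (fun n => by
      refine (Measurable.ennreal_ofReal ?_).aemeasurable.mul hg
      have := w_meas
      fun_prop)
  refine le_trans (le_of_eq (lintegral_congr fun x => ?_)) (h1.trans ?_)
  · exact (ENNReal.Tendsto.mul_const (ENNReal.tendsto_ofReal ((slope_lim c (w x)).comp hu))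
      (Or.inr (hfin x))).liminf_eq.symm
  · exact liminf_le_of_frequently_le' (hu.eventually h).frequently

end Pool.Agent.H.MP_62a15f_an
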