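import Pool.Agent.H.MP_62a15f_an.C

open MeasureTheory Filter Topology Set
open scoped ENNReal NNReal Nat ComplexOrder

namespace Pool.Agent.H.MP_62a15f_an

noncomputable abbrev L (p : ℝ≥0∞) := Lp ℂ p (volume : Measure ℝ)

noncomputable def U (p : ℝ≥0∞) [Fact (1 ≤ p)] (t : ℝ) : L p →L[ℂ] L p :=
  (ex_op (goodA (abs_nonneg t)) p).choose

variable {p : ℝ≥0∞} [hp : Fact (1 ≤ p)]

lemma U_norm (t : ℝ) : ‖U p t‖ ≤ 1 := (ex_op (goodA (abs_nonneg t)) p).choose_spec.1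

lemma U_ae {t : ℝ} (ht : 0 ≤ t) (f : L p) : U p t f =ᵐ[volume] op (A t) f := by
  have := (ex_op (goodA (abs_nonneg t)) p).choose_spec.2 f
  refine this.trans ?_
  rw [abs_of_nonneg ht]

lemma U_zero : U p 0 = 1 := by
  ext1 f
  refine Lp.ext ((U_ae le_rfl f).trans (ae_of_all _ fun x => ?_))
  simp [op_zero]

lemma U_add {s t : ℝ} (hs : 0 ≤ s) (ht : 0 ≤ t) : U p (s + t) = U p s * U p t := by
  ext1 f
  refine Lp.ext ((U_ae (add_nonneg hs ht) f).trans ?_)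
  rw [mul_apply_eq_comp]
  filter_upwards [U_ae hs (U p t f), op_congr (b := A s) (U_ae ht f),
    ae_sum (goodA (add_nonneg hs ht)) hp.out (Lp.memLp f)] with x h1 h2 h3
  rw [h1, h2, op_op hs ht h3]

omit hp in
lemma lp_tend {F : ℝ → ℝ → ℂ} {l : Filter ℝ} (h0 : p ≠ 0) (hp' : p ≠ ∞) {G : ℝ → ℝ≥0∞}
    (hG : Tendsto G l (𝓝 0)) (h : ∀ᶠ t in l, ∫⁻ x, ‖F t x‖ₑ ^ p.toReal ≤ G t) :
    Tendsto (fun t => eLpNorm (F t) p volume) l (𝓝 0) := by
  have h1 := tendsto_of_tendsto_of_tendsto_of_le_of_le' tendsto_const_nhds hG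
    (Eventually.of_forall fun _ => zero_le) h
  have h2 := (ENNReal.continuous_rpow_const (y := 1 / p.toReal)).tendsto 0 |>.comp h1
  rw [ENNReal.zero_rpow_of_pos (by have := ENNReal.toReal_pos h0 hp'; positivity)] at h2
  refine h2.congr fun t => ?_
  rw [eLpNorm_eq_lintegral_rpow_enorm_toReal h0 hp']; rfl

lemma exp_tend (c : ℝ) : Tendsto (fun τ : ℝ => Real.exp (-c * τ)) (𝓝[≥] 0) (𝓝 1) := by
  have : Continuous fun τ : ℝ => Real.exp (-c * τ) := by fun_prop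
  simpa using (this.tendsto 0).mono_left nhdsWithin_le_nhds

lemma U_cont0 (hp' : p ≠ ∞) (f : L p) : Tendsto (fun t => U p t f) (𝓝[≥] 0) (𝓝 f) := by
  have h0 : p ≠ 0 := (lt_of_lt_of_le one_pos hp.out).ne'
  have h1 := toReal_one_le hp.out hp'
  have hf := Lp.aestronglyMeasurable f
  have hfin := (lintegral_rpow_enorm_lt_top_of_eLpNorm_lt_top h0 hp' (Lp.eLpNorm_lt_top f)).ne
  have hg := hf.enorm.pow_const p.toReal
  have t1 : Tendsto (fun t => eLpNorm (fun x => ((Real.exp (-10 * (t * w x)) - 1 : ℝ) : ℂ) * f x) p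
      volume) (𝓝[≥] 0) (𝓝 0) := by
    refine lp_tend h0 hp' (dct (fun τ => 1 - Real.exp (-10 * τ)) (by fun_prop) 1
      (fun τ _ => by linarith [Real.exp_pos (-10 * τ)])
      (by simpa using (exp_tend 10).const_sub 1) hg hfin) ?_
    filter_upwards [self_mem_nhdsWithin] with t ht
    refine lintegral_mono fun x => ?_
    have e1 := exp_le1 (c := 10) (by norm_num) (mul_nonneg ht (w_nonneg x))
    have e2 := Real.exp_pos (-10 * (t * w x))
    rw [enorm_mul, ENNReal.mul_rpow_of_nonneg _ _ (by linarith), ← ofReal_norm (_ : ℂ),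
      Complex.norm_real, Real.norm_eq_abs, abs_sub_comm, abs_of_nonneg (by linarith)]
    refine mul_le_mul_left ?_ _
    exact (ENNReal.rpow_le_rpow_of_exponent_ge (ENNReal.ofReal_le_one.2 (by linarith)) h1).trans
      (by rw [ENNReal.rpow_one])
  have t2 : Tendsto (fun t => eLpNorm (op (As {(0, 0)} t) f) p volume) (𝓝[≥] 0) (𝓝 0) := by
    refine lp_tend h0 hp' (dct (fun τ => Real.exp (-5 * τ) - Real.exp (-10 * τ)) (by fun_prop) 1
      (fun τ hτ => by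
        linarith [Real.exp_pos (-10 * τ), exp_le1 (c := 5) (by norm_num) hτ])
      (by simpa using (exp_tend 5).sub (exp_tend 10)) hg hfin) ?_
    filter_upwards [self_mem_nhdsWithin] with t ht
    simpa [a00, ρ00] using op_lp (goodAs {(0, 0)} ht) hf h1
  rw [Lp.tendsto_Lp_iff_tendsto_eLpNorm']
  have t3 := t1.add t2
  rw [add_zero] at t3
  refine tendsto_of_tendsto_of_tendsto_of_le_of_le' tendsto_const_nhds t3
    (Eventually.of_forall fun _ => zero_le) ?_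
  filter_upwards [self_mem_nhdsWithin] with t ht
  refine le_trans (le_of_eq (eLpNorm_congr_ae ?_)) (eLpNorm_add_le ?_ (op_meas (goodAs _ ht) hf) hp.out)
  · filter_upwards [U_ae ht f, ae_sum (goodA ht) hp.out (Lp.memLp f)] with x e1 e2
    rw [Pi.sub_apply, e1, op_split {(0, 0)} ht e2, Finset.sum_singleton, a00, ρ00, one_mul,
      Pi.add_apply]
    push_cast; ring
  · refine (Measurable.aestronglyMeasurable ?_).mul hf
    have := w_meas
    fun_prop

lemma U_cont (hp' : p ≠ ∞) (f : L p) : ContinuousOn (fun t => U p t f) (Ici 0) := by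
  have key : ∀ s t : ℝ, 0 ≤ s → s ≤ t → ‖U p t f - U p s f‖ ≤ ‖U p (t - s) f - f‖ := by
    intro s t hs hst
    have : U p t f - U p s f = U p s (U p (t - s) f - f) := by
      rw [map_sub, ← mul_apply_eq_comp, ← U_add hs (by linarith), add_sub_cancel]
    rw [this]
    exact (ContinuousLinearMap.le_of_opNorm_le _ (U_norm s) _).trans (by rw [one_mul])
  intro s hs
  rw [ContinuousWithinAt, tendsto_iff_norm_sub_tendsto_zero]
  have h1 : Tendsto (fun t : ℝ => |t - s|) (𝓝[Ici 0] s) (𝓝[≥] 0) := by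
    refine tendsto_nhdsWithin_iff.2 ⟨?_, Eventually.of_forall fun t => mem_Ici.2 (abs_nonneg _)⟩
    have : Continuous fun t : ℝ => |t - s| := by fun_prop
    simpa using (this.tendsto s).mono_left nhdsWithin_le_nhds
  have h2 := (tendsto_iff_norm_sub_tendsto_zero.1 (U_cont0 hp' f)).comp h1
  refine squeeze_zero' (Eventually.of_forall fun _ => norm_nonneg _) ?_ h2
  filter_upwards [self_mem_nhdsWithin] with t ht
  rcases le_total s t with h | h
  · simpa [abs_of_nonneg (sub_nonneg.2 h)] using key s t hs h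
  · rw [norm_sub_rev]
    simpa [abs_of_nonpos (sub_nonpos.2 h)] using key t s ht h

lemma amgm {θ : ℝ} (hθ : 0 < θ) (x y : ℂ) :
    2 * (‖x‖ₑ * ‖y‖ₑ) ≤ ENNReal.ofReal θ * ‖x‖ₑ ^ 2 + ENNReal.ofReal θ⁻¹ * ‖y‖ₑ ^ 2 := by
  rw [← ofReal_norm x, ← ofReal_norm y, ← ENNReal.ofReal_pow (norm_nonneg _),
    ← ENNReal.ofReal_pow (norm_nonneg _), ← ENNReal.ofReal_mul hθ.le,
    ← ENNReal.ofReal_mul (inv_pos.2 hθ).le, ← ENNReal.ofReal_mul (norm_nonneg _),
    ← ENNReal.ofReal_add (by positivity) (by positivity), ← ENNReal.ofReal_ofNat 2,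
    ← ENNReal.ofReal_mul (by norm_num)]
  refine ENNReal.ofReal_le_ofReal ?_
  have : θ * ‖x‖ ^ 2 + θ⁻¹ * ‖y‖ ^ 2 - 2 * (‖x‖ * ‖y‖) = θ⁻¹ * (θ * ‖x‖ - ‖y‖) ^ 2 := by
    field_simp; ring
  have h2 : 0 ≤ θ⁻¹ * (θ * ‖x‖ - ‖y‖) ^ 2 := by positivity
  linarith

lemma sum6 {t : ℝ} (ht : 0 ≤ t) {g : ℝ → ℝ≥0∞} (hg : AEMeasurable g volume) :
    ∑' i, ∫⁻ x, ENNReal.ofReal (a (t * w x) i * (σ i)⁻¹) * g x =
      ∫⁻ x, ENNReal.ofReal (Real.exp (-6 * (t * w x))) * g x := by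
  have h1 : ∀ i, AEMeasurable (fun x => ENNReal.ofReal (a (t * w x) i * (σ i)⁻¹) * g x) volume :=
    fun i => (((a_meas t i).comp w_meas).mul_const _).ennreal_ofReal.aemeasurable.mul hg
  rw [← lintegral_tsum h1]
  refine lintegral_congr fun x => ?_
  have hτ := mul_nonneg ht (w_nonneg x)
  rw [ENNReal.tsum_mul_right, ofReal_hs
    (fun i => mul_nonneg (a_nonneg hτ i) (inv_pos.2 (σ_pos i)).le) (hs3 hτ)]

lemma two {t : ℝ} (ht : 0 ≤ t) {f g : ℝ → ℂ} (hf : AEStronglyMeasurable f volume)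
    (hg : AEStronglyMeasurable g volume) :
    2 * ∑' i, ∫⁻ x, ENNReal.ofReal (a (t * w x) i) * (‖f (ρ i * x)‖ₑ * ‖g x‖ₑ) ≤
      (∫⁻ x, ENNReal.ofReal (Real.exp (-6 * (t * w x))) * ‖f x‖ₑ ^ 2) +
      ∫⁻ x, ENNReal.ofReal (Real.exp (-6 * (t * w x))) * ‖g x‖ₑ ^ 2 := by
  rw [← sum6 ht (hf.enorm.pow_const 2), ← sum6 ht (hg.enorm.pow_const 2), ← ENNReal.tsum_add,
    ← ENNReal.tsum_mul_left]
  refine ENNReal.tsum_le_tsum fun i => ?_
  have e1 : ∫⁻ x, ENNReal.ofReal (a (t * w x) i * (σ i)⁻¹) * ‖f x‖ₑ ^ 2 =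
      ∫⁻ x, ENNReal.ofReal (a (t * w x) i * σ i) * ‖f (ρ i * x)‖ₑ ^ 2 := by
    rw [lint_w i (fun v => ENNReal.ofReal (a (t * v) i * σ i)) (fun x => ‖f x‖ₑ ^ 2)]
    refine lintegral_congr fun x => ?_
    rw [← mul_assoc, ← ENNReal.ofReal_mul (inv_pos.2 (ρ_pos i)).le, ← σ_sq]
    congr 2
    have := σ_pos i
    field_simp
  rw [e1, ← lintegral_const_mul' _ _ (by simp), ← lintegral_add_right']
  · refine lintegral_mono fun x => ?_
    have h0 := a_nonneg (mul_nonneg ht (w_nonneg x)) i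
    rw [ENNReal.ofReal_mul h0, ENNReal.ofReal_mul h0, mul_assoc, mul_assoc, ← mul_add, mul_left_comm]
    exact mul_le_mul_right (amgm (σ_pos i) _ _) _
  · exact (((a_meas t i).comp w_meas).mul_const _).ennreal_ofReal.aemeasurable.mul
      (hg.enorm.pow_const 2)

lemma sq_fin (f : L 2) : ∫⁻ x, ‖f x‖ₑ ^ 2 = ‖f‖ₑ ^ 2 := by
  have := eLpNorm_nnreal_pow_eq_lintegral (f := f) (μ := volume) (p := 2) (by norm_num)
  rw [Lp.enorm_def]
  simpa using this.symm

lemma exp6_le {t : ℝ} (ht : 0 ≤ t) (g : ℝ → ℝ≥0∞) :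
    ∫⁻ x, ENNReal.ofReal (Real.exp (-6 * (t * w x))) * g x ≤ ∫⁻ x, g x :=
  lintegral_mono fun x => by
    calc _ ≤ 1 * g x := mul_le_mul_left (ENNReal.ofReal_le_one.2
        (exp_le1 (by norm_num) (mul_nonneg ht (w_nonneg x)))) _
      _ = _ := one_mul _

lemma enorm_term {t : ℝ} (ht : 0 ≤ t) (i : ℕ × ℕ) (x : ℝ) (y z : ℂ) :
    ‖(a (t * w x) i : ℂ) * (y * z)‖ₑ = ENNReal.ofReal (a (t * w x) i) * (‖y‖ₑ * ‖z‖ₑ) := by
  rw [enorm_mul, enorm_mul, ← ofReal_norm (a (t * w x) i : ℂ), Complex.norm_real,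
    Real.norm_of_nonneg (a_nonneg (mul_nonneg ht (w_nonneg x)) i)]

/-- bilinear pairing expansion -/
lemma pair {t : ℝ} (ht : 0 ≤ t) {f g : ℝ → ℂ} (hf : AEStronglyMeasurable f volume)
    (hg : AEStronglyMeasurable g volume) (h1 : ∫⁻ x, ‖f x‖ₑ ^ 2 ≠ ∞) (h2 : ∫⁻ x, ‖g x‖ₑ ^ 2 ≠ ∞) :
    ∫ x, op (A t) f x * g x = ∑' i, ∫ x, (a (t * w x) i : ℂ) * (f (ρ i * x) * g x) := by
  rw [← integral_tsum]
  · refine integral_congr_ae (ae_of_all _ fun x => ?_)
    simp only [op, A, ← tsum_mul_right, mul_assoc]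
  · intro i
    exact (Complex.measurable_ofReal.comp ((a_meas t i).comp w_meas)).aestronglyMeasurable.mul
      ((hf.comp_quasiMeasurePreserving (qmp (ρ_pos i))).mul hg)
  · simp only [enorm_term ht]
    have := (two ht hf hg).trans (add_le_add (exp6_le ht _) (exp6_le ht _))
    intro h
    rw [h] at this
    exact absurd (top_le_iff.1 (by simpa using this)) (ENNReal.add_ne_top.2 ⟨h1, h2⟩)

lemma a_swap (τ : ℝ) (i : ℕ × ℕ) : a τ i.swap = a τ i * (ρ i)⁻¹ := by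
  unfold a ρ
  simp only [Prod.fst_swap, Prod.snd_swap, mul_pow]; field_simp

lemma ρ_swap (i : ℕ × ℕ) : ρ i.swap * ρ i = 1 := by
  unfold ρ; simp only [Prod.fst_swap, Prod.snd_swap]; field_simp

lemma pair_symm {t : ℝ} (ht : 0 ≤ t) {f g : ℝ → ℂ} (hf : AEStronglyMeasurable f volume)
    (hg : AEStronglyMeasurable g volume) (h1 : ∫⁻ x, ‖f x‖ₑ ^ 2 ≠ ∞) (h2 : ∫⁻ x, ‖g x‖ₑ ^ 2 ≠ ∞) :
    ∫ x, op (A t) f x * g x = ∫ x, op (A t) g x * f x := by
  rw [pair ht hf hg h1 h2, pair ht hg hf h2 h1, ← (Equiv.prodComm ℕ ℕ).tsum_eq]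
  refine tsum_congr fun i => ?_
  have h := Measure.integral_comp_mul_left
    (fun x => (a (t * w x) i.swap : ℂ) * (f (ρ i.swap * x) * g x)) (ρ i)
  simp only [w_inv, ← mul_assoc (ρ i.swap), ρ_swap, one_mul] at h
  have hρ := ρ_pos i
  rw [abs_of_pos (inv_pos.2 hρ)] at h
  have h' : ∫ x, (a (t * w x) i.swap : ℂ) * (f (ρ i.swap * x) * g x) =
      ρ i • ∫ x, (a (t * w x) i.swap : ℂ) * (f x * g (ρ i * x)) := by
    rw [h, smul_smul, mul_inv_cancel₀ hρ.ne', one_smul]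
  simp only [Equiv.prodComm_apply]
  rw [h', ← integral_smul]
  refine integral_congr_ae (ae_of_all _ fun x => ?_)
  simp only [a_swap, Complex.real_smul]; push_cast
  have : (ρ i : ℂ) ≠ 0 := by exact_mod_cast hρ.ne'
  field_simp

lemma op_conj (b : ℝ → ℕ × ℕ → ℝ) (f : ℝ → ℂ) (x : ℝ) :
    starRingEnd ℂ (op b f x) = op b (fun y => starRingEnd ℂ (f y)) x := by
  unfold op
  rw [Complex.conj_tsum]
  simp

lemma U_sa {t : ℝ} (ht : 0 ≤ t) : IsSelfAdjoint (U 2 t) := by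
  rw [ContinuousLinearMap.isSelfAdjoint_iff_isSymmetric]
  intro f g
  simp only [ContinuousLinearMap.coe_coe, L2.inner_def, RCLike.inner_apply]
  have hf := Lp.aestronglyMeasurable f
  have hf' : AEStronglyMeasurable (fun y => starRingEnd ℂ (f y)) volume :=
    Complex.continuous_conj.comp_aestronglyMeasurable hf
  have n1 : ∫⁻ x, ‖starRingEnd ℂ (f x)‖ₑ ^ 2 ≠ ∞ := by
    simp only [RCLike.enorm_conj]; rw [sq_fin]; exact ENNReal.pow_ne_top enorm_ne_top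
  have n2 : ∫⁻ x, ‖g x‖ₑ ^ 2 ≠ ∞ := by rw [sq_fin]; exact ENNReal.pow_ne_top enorm_ne_top
  have := pair_symm ht hf' (Lp.aestronglyMeasurable g) n1 n2
  refine Eq.trans (integral_congr_ae ?_) (this.trans (integral_congr_ae ?_))
  · filter_upwards [U_ae ht f] with x hx
    rw [hx, op_conj, mul_comm]
  · filter_upwards [U_ae ht g] with x hx
    rw [hx]

lemma form_bd {t : ℝ} (ht : 0 < t) (f : L 2) :
    ∫⁻ x, ENNReal.ofReal (t⁻¹ * (1 - Real.exp (-6 * (t * w x)))) * ‖f x‖ₑ ^ 2 ≤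
      ENNReal.ofReal (t⁻¹ * (inner ℂ f (f - U 2 t f)).re) := by
  have hf := Lp.aestronglyMeasurable f
  set J := ∫⁻ x, ENNReal.ofReal (Real.exp (-6 * (t * w x))) * ‖f x‖ₑ ^ 2
  set K := ∫⁻ x, ENNReal.ofReal (1 - Real.exp (-6 * (t * w x))) * ‖f x‖ₑ ^ 2
  have hJK : J + K = ‖f‖ₑ ^ 2 := by
    rw [← sq_fin, ← lintegral_add_left']
    · refine lintegral_congr fun x => ?_
      rw [← add_mul, ← ENNReal.ofReal_add (Real.exp_pos _).le
        (sub_nonneg.2 (exp_le1 (by norm_num) (mul_nonneg ht.le (w_nonneg x))))]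
      simp
    · refine (Measurable.ennreal_ofReal ?_).aemeasurable.mul (hf.enorm.pow_const 2)
      have := w_meas
      fun_prop
  have hfin : J + K ≠ ∞ := by rw [hJK]; exact ENNReal.pow_ne_top enorm_ne_top
  obtain ⟨hJ, hK⟩ := ENNReal.add_ne_top.1 hfin
  have h1 : ‖inner ℂ f (U 2 t f)‖ₑ ≤ J := by
    have h2 := two ht.le hf hf
    rw [← two_mul, ENNReal.mul_le_mul_iff_right (by simp) (by simp)] at h2
    refine le_trans ?_ h2
    rw [L2.inner_def]
    refine (enorm_integral_le_lintegral_enorm _).trans ?_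
    have h3 : ∀ i, AEMeasurable
        (fun x => ENNReal.ofReal (a (t * w x) i) * (‖f (ρ i * x)‖ₑ * ‖f x‖ₑ)) volume := fun i =>
      ((a_meas t i).comp w_meas).ennreal_ofReal.aemeasurable.mul
        ((hf.enorm.comp_quasiMeasurePreserving (qmp (ρ_pos i))).mul hf.enorm)
    rw [← lintegral_tsum h3]
    refine lintegral_mono_ae ?_
    filter_upwards [U_ae ht.le f] with x hx
    rw [RCLike.inner_apply, enorm_mul, RCLike.enorm_conj, hx]
    refine (mul_le_mul_left (enorm_op (goodA ht.le) f x) _).trans (le_of_eq ?_)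
    simp only [maj, A, ← ENNReal.tsum_mul_right, mul_assoc]
  have h4 : K.toReal ≤ (inner ℂ f (f - U 2 t f)).re := by
    have e1 : J.toReal + K.toReal = ‖f‖ ^ 2 := by
      rw [← ENNReal.toReal_add hJ hK, hJK, ENNReal.toReal_pow, toReal_enorm]
    have e2 : ‖inner ℂ f (U 2 t f)‖ ≤ J.toReal := by
      simpa using ENNReal.toReal_mono hJ h1
    have e3 := Complex.re_le_norm (inner ℂ f (U 2 t f))
    have e4 : (inner ℂ f f).re = ‖f‖ ^ 2 := inner_self_eq_norm_sq (𝕜 := ℂ) f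
    rw [inner_sub_right, Complex.sub_re]; linarith
  simp only [ENNReal.ofReal_mul (inv_pos.2 ht).le, mul_assoc]
  rw [lintegral_const_mul' _ _ ENNReal.ofReal_ne_top]
  refine mul_le_mul_right ?_ _
  exact (ENNReal.ofReal_toReal hK).symm.le.trans (ENNReal.ofReal_le_ofReal h4)

end Pool.Agent.H.MP_62a15f_an
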