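import Pool.Agent.H.MP_62a15f_an.D

open MeasureTheory Filter Topology Set
open scoped ENNReal NNReal Nat ComplexOrder

namespace Pool.Agent.H.MP_62a15f_an

def Gen (u h : L 1) : Prop :=
  Tendsto (fun t : ℝ => t⁻¹ • (U 1 t u - u)) (𝓝[>] 0) (𝓝 h)

noncomputable def gen (u : ℝ → ℂ) (x : ℝ) : ℂ :=
  4 * (w x * u (ρ (1, 0) * x)) + w x * u (ρ (0, 1) * x) - 10 * (w x * u x)

lemma en1 (f : L 1) : ‖f‖ₑ = ∫⁻ x, ‖f x‖ₑ := by
  rw [Lp.enorm_def, eLpNorm_one_eq_lintegral_enorm]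

lemma dom {u h : L 1} (H : Gen u h) : ∫⁻ x, ENNReal.ofReal (w x) * ‖u x‖ₑ ≠ ∞ := by
  have hu := Lp.aestronglyMeasurable u
  have h1 : ∀ᶠ t in 𝓝[>] (0:ℝ), ‖t⁻¹ • (U 1 t u - u)‖ₑ ≤ ‖h‖ₑ + 1 :=
    (H.enorm).eventually (eventually_le_nhds (ENNReal.lt_add_right enorm_ne_top one_ne_zero))
  have h2 := fatou 5 (g := fun x => ‖u x‖ₑ) hu.enorm (fun _ => enorm_ne_top) (M := ‖h‖ₑ + 1) (by
    filter_upwards [h1, self_mem_nhdsWithin] with t h1 ht
    have ht : 0 < t := ht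
    refine le_trans ?_ h1
    set J := ∫⁻ x, ENNReal.ofReal (Real.exp (-5 * (t * w x))) * ‖u x‖ₑ with hJ
    set K := ∫⁻ x, ENNReal.ofReal (1 - Real.exp (-5 * (t * w x))) * ‖u x‖ₑ
    have hJK : J + K = ‖u‖ₑ := by
      rw [en1, ← lintegral_add_left']
      · refine lintegral_congr fun x => ?_
        rw [← add_mul, ← ENNReal.ofReal_add (Real.exp_pos _).le
          (sub_nonneg.2 (exp_le1 (by norm_num) (mul_nonneg ht.le (w_nonneg x))))]
        simp
      · refine (Measurable.ennreal_ofReal ?_).aemeasurable.mul hu.enorm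
        have := w_meas
        fun_prop
    have hJf : J ≠ ∞ := (ENNReal.add_ne_top.1 (by rw [hJK]; exact enorm_ne_top)).1
    have e1 : ‖U 1 t u‖ₑ ≤ J := by
      rw [en1, lintegral_congr_ae (g := fun x => ‖op (A t) u x‖ₑ)
        (by filter_upwards [U_ae ht.le u] with x hx; rw [hx])]
      simpa only [ENNReal.rpow_one] using op_lp (goodA ht.le) hu le_rfl
    have e2 : ‖u‖ₑ ≤ ‖U 1 t u‖ₑ + ‖U 1 t u - u‖ₑ := by
      conv_lhs => rw [show u = U 1 t u - (U 1 t u - u) by abel]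
      exact enorm_sub_le
    have e3 : K ≤ ‖U 1 t u - u‖ₑ := by
      rw [← ENNReal.add_le_add_iff_left hJf, hJK]
      exact e2.trans (add_le_add_left e1 _)
    simp only [ENNReal.ofReal_mul (inv_pos.2 ht).le, mul_assoc]
    rw [lintegral_const_mul' _ _ ENNReal.ofReal_ne_top, enorm_smul, ← ofReal_norm t⁻¹,
      Real.norm_of_nonneg (inv_pos.2 ht).le]
    exact mul_le_mul_right e3 _)
  refine ne_top_of_le_ne_top (b := ‖h‖ₑ + 1) (by simp) (le_trans (lintegral_mono fun x => ?_) h2)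
  exact mul_le_mul_left (ENNReal.ofReal_le_ofReal (by linarith [w_nonneg x])) _

lemma enorm_w (c : ℝ) (hc : 0 ≤ c) (z : ℂ) : ‖(c : ℂ) * z‖ₑ = ENNReal.ofReal c * ‖z‖ₑ := by
  rw [enorm_mul, ← ofReal_norm (c : ℂ), Complex.norm_real, Real.norm_of_nonneg hc]

lemma intw {u : ℝ → ℂ} (hu : AEStronglyMeasurable u volume)
    (h : ∫⁻ x, ENNReal.ofReal (w x) * ‖u x‖ₑ ≠ ∞) (i : ℕ × ℕ) :
    Integrable (fun x => (w x : ℂ) * u (ρ i * x)) := by
  refine ⟨(Complex.measurable_ofReal.comp w_meas).aestronglyMeasurable.mul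
    (hu.comp_quasiMeasurePreserving (qmp (ρ_pos i))), ?_⟩
  rw [HasFiniteIntegral]
  simp only [enorm_w _ (w_nonneg _)]
  rw [lint_w i ENNReal.ofReal (fun x => ‖u x‖ₑ), lintegral_const_mul' _ _ ENNReal.ofReal_ne_top]
  exact ENNReal.mul_lt_top ENNReal.ofReal_lt_top h.lt_top

lemma intw0 {u : ℝ → ℂ} (hu : AEStronglyMeasurable u volume)
    (h : ∫⁻ x, ENNReal.ofReal (w x) * ‖u x‖ₑ ≠ ∞) : Integrable (fun x => (w x : ℂ) * u x) := by
  simpa [ρ00] using intw hu h (0, 0)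

lemma b1 {τ : ℝ} (h : 0 ≤ τ) : |Real.exp (-10 * τ) - 1 + 10 * τ| ≤ 100 * (τ * min 1 τ) := by
  have e1 := Real.add_one_le_exp (-10 * τ)
  have e2 := exp_le1 (c := 10) (by norm_num) h
  have e3 : Real.exp (-10 * τ) * (1 + 10 * τ) ≤ 1 := by
    have := Real.add_one_le_exp (10 * τ)
    have h2 : Real.exp (-10 * τ) * Real.exp (10 * τ) = 1 := by rw [← Real.exp_add]; simp
    nlinarith [Real.exp_pos (-10 * τ)]
  rw [abs_of_nonneg (by linarith)]
  rcases le_total 1 τ with h1 | h1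
  · rw [min_eq_left h1]; linarith
  · rw [min_eq_right h1]
    by_contra hc
    push Not at hc
    have : (1 - 10 * τ + 100 * (τ * τ)) * (1 + 10 * τ) < Real.exp (-10 * τ) * (1 + 10 * τ) :=
      mul_lt_mul_of_pos_right (by linarith) (by linarith)
    nlinarith [mul_nonneg h (mul_nonneg h h)]

lemma b2 {τ : ℝ} (h : 0 ≤ τ) : |Real.exp (-10 * τ) - 1| ≤ 10 * min 1 τ := by
  have e1 := Real.add_one_le_exp (-10 * τ)
  have e2 := exp_le1 (c := 10) (by norm_num) h
  have e3 := Real.exp_pos (-10 * τ)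
  rw [abs_of_nonpos (by linarith)]
  rcases le_total 1 τ with h1 | h1
  · rw [min_eq_left h1]; linarith
  · rw [min_eq_right h1]; linarith

lemma b3 {τ : ℝ} (h : 0 ≤ τ) :
    Real.exp (-5 * τ) - Real.exp (-10 * τ) * (1 + 5 * τ) ≤ 25 * (τ * min 1 τ) := by
  have e1 := Real.add_one_le_exp (-5 * τ)
  have e2 := exp_le1 (c := 5) (by norm_num) h
  have e3 := Real.exp_pos (-5 * τ)
  have e4 : Real.exp (-10 * τ) = Real.exp (-5 * τ) * Real.exp (-5 * τ) := by
    rw [← Real.exp_add]; congr 1; ring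
  rw [e4]
  set E := Real.exp (-5 * τ)
  have e5 : 1 - E * (1 + 5 * τ) ≤ 25 * (τ * min 1 τ) := by
    rcases le_total 1 τ with h1 | h1
    · rw [min_eq_left h1]; nlinarith
    · rw [min_eq_right h1]; nlinarith
  have e6 : 0 ≤ 25 * (τ * min 1 τ) := by positivity
  nlinarith

lemma gen_of {u h : L 1} (hw : ∫⁻ x, ENNReal.ofReal (w x) * ‖u x‖ₑ ≠ ∞) (hh : h =ᵐ[volume] gen u) :
    Gen u h := by
  have hu := Lp.aestronglyMeasurable u
  have hm : ∀ t : ℝ, Measurable fun x => ENNReal.ofReal (min 1 (t * w x) * w x) := fun t => by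
    have := w_meas
    fun_prop
  set G : ℝ → ℝ≥0∞ := fun t => ∫⁻ x, ENNReal.ofReal (min 1 (t * w x) * w x) * ‖u x‖ₑ with hG
  have hG0 : Tendsto G (𝓝[>] 0) (𝓝 0) := by
    have h1 : Tendsto (fun τ : ℝ => min 1 τ) (𝓝[≥] 0) (𝓝 0) := by
      have : Continuous fun τ : ℝ => min 1 τ := by fun_prop
      simpa using (this.tendsto 0).mono_left nhdsWithin_le_nhds
    have := (dct (fun τ => min 1 τ) (by fun_prop) 1 (fun τ _ => min_le_left _ _) h1
      (w_meas.ennreal_ofReal.aemeasurable.mul hu.enorm) hw).mono_left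
      (nhdsWithin_mono _ Ioi_subset_Ici_self)
    refine this.congr fun t => lintegral_congr fun x => ?_
    rw [ENNReal.ofReal_mul' (w_nonneg x), mul_assoc]; rfl
  have hGi : ∀ t i, ∫⁻ x, ENNReal.ofReal (min 1 (t * w x) * w x) * ‖u (ρ i * x)‖ₑ =
      ENNReal.ofReal (ρ i)⁻¹ * G t := fun t i => by
    rw [lint_w i (fun v => ENNReal.ofReal (min 1 (t * v) * v)) (fun x => ‖u x‖ₑ),
      lintegral_const_mul' _ _ ENNReal.ofReal_ne_top]
  have hmi : ∀ t i, AEMeasurable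
      (fun x => ENNReal.ofReal (min 1 (t * w x) * w x) * ‖u (ρ i * x)‖ₑ) volume := fun t i =>
    (hm t).aemeasurable.mul (hu.enorm.comp_quasiMeasurePreserving (qmp (ρ_pos i)))
  set c : ℝ≥0∞ := 100 * (ENNReal.ofReal (ρ (0, 0))⁻¹ + ENNReal.ofReal (ρ (1, 0))⁻¹ +
    ENNReal.ofReal (ρ (0, 1))⁻¹) + 25 with hc
  have hcG : Tendsto (fun t => c * G t) (𝓝[>] 0) (𝓝 0) := by
    have := ENNReal.Tendsto.const_mul (a := c) hG0 (Or.inr (by rw [hc]; finiteness))
    simpa using this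
  rw [Gen, Lp.tendsto_Lp_iff_tendsto_eLpNorm']
  refine tendsto_of_tendsto_of_tendsto_of_le_of_le' tendsto_const_nhds hcG
    (Eventually.of_forall fun _ => zero_le) ?_
  filter_upwards [self_mem_nhdsWithin] with t ht
  have ht : 0 < t := ht
  set s : Finset (ℕ × ℕ) := {(0, 0), (1, 0), (0, 1)} with hs
  have hsum : ∀ {M : Type} [AddCommMonoid M] (F : ℕ × ℕ → M),
      ∑ i ∈ s, F i = F (0, 0) + F (1, 0) + F (0, 1) := fun F => by
    rw [hs, Finset.sum_insert (by decide), Finset.sum_insert (by decide), Finset.sum_singleton,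
      add_assoc]
  have r1 : ENNReal.ofReal t⁻¹ * ∫⁻ x, ‖op (As s t) u x‖ₑ ≤ 25 * G t := by
    have := op_lp (goodAs s ht.le) hu le_rfl
    simp only [ENNReal.rpow_one] at this
    refine (mul_le_mul_right this _).trans ?_
    rw [← lintegral_const_mul' _ _ ENNReal.ofReal_ne_top, hG, ← lintegral_const_mul' _ _ (by simp)]
    refine lintegral_mono fun x => ?_
    rw [← mul_assoc (ENNReal.ofReal t⁻¹), ← mul_assoc (25 : ℝ≥0∞),
      ← ENNReal.ofReal_mul (inv_pos.2 ht).le, ← ENNReal.ofReal_ofNat 25,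
      ← ENNReal.ofReal_mul (by norm_num)]
    refine mul_le_mul_left (ENNReal.ofReal_le_ofReal ?_) _
    have h3 := b3 (mul_nonneg ht.le (w_nonneg x))
    rw [hsum, a00, a10, a01, ρ00, ρ10, ρ01, inv_mul_le_iff₀ ht]
    norm_num at h3 ⊢
    linarith
  rw [eLpNorm_one_eq_lintegral_enorm]
  calc _ ≤ ∫⁻ x, (100 * (ENNReal.ofReal (min 1 (t * w x) * w x) * ‖u (ρ (0, 0) * x)‖ₑ +
        ENNReal.ofReal (min 1 (t * w x) * w x) * ‖u (ρ (1, 0) * x)‖ₑ +
        ENNReal.ofReal (min 1 (t * w x) * w x) * ‖u (ρ (0, 1) * x)‖ₑ) +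
        ENNReal.ofReal t⁻¹ * ‖op (As s t) u x‖ₑ) := by
        refine lintegral_mono_ae ?_
        filter_upwards [U_ae ht.le u, ae_sum (goodA ht.le) le_rfl (Lp.memLp u), hh,
          Lp.coeFn_smul t⁻¹ (U 1 t u - u), Lp.coeFn_sub (U 1 t u) u] with x e1 e2 e3 e4 e5
        have hτ := mul_nonneg ht.le (w_nonneg x)
        have hwx := w_nonneg x
        have hmn : 0 ≤ min 1 (t * w x) * w x := by positivity
        have key : (⇑(t⁻¹ • (U 1 t u - u)) - ⇑h) x =
            ((t⁻¹ * (Real.exp (-10 * (t * w x)) - 1 + 10 * (t * w x)) : ℝ) : ℂ) * u (ρ (0, 0) * x) +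
            ((4 * w x * (Real.exp (-10 * (t * w x)) - 1) : ℝ) : ℂ) * u (ρ (1, 0) * x) +
            ((w x * (Real.exp (-10 * (t * w x)) - 1) : ℝ) : ℂ) * u (ρ (0, 1) * x) +
            ((t⁻¹ : ℝ) : ℂ) * op (As s t) u x := by
          rw [Pi.sub_apply, e4, Pi.smul_apply, e5, Pi.sub_apply, e1, e3, op_split s ht.le e2, hsum,
            a00, a10, a01, gen, ρ00, one_mul, Complex.real_smul]
          have : (t : ℂ) ≠ 0 := by exact_mod_cast ht.ne'
          push_cast; field_simp; ring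
        have bd : ∀ (r : ℝ) (z : ℂ), |r| ≤ 100 * (min 1 (t * w x) * w x) →
            ‖(r : ℂ) * z‖ₑ ≤ 100 * (ENNReal.ofReal (min 1 (t * w x) * w x) * ‖z‖ₑ) := by
          intro r z hr
          rw [enorm_mul, ← ofReal_norm (r : ℂ), Complex.norm_real, Real.norm_eq_abs, ← mul_assoc,
            ← ENNReal.ofReal_ofNat 100, ← ENNReal.ofReal_mul (by norm_num)]
          exact mul_le_mul_left (ENNReal.ofReal_le_ofReal hr) _
        have h2 := b2 hτ
        rw [key, mul_add (100 : ℝ≥0∞), mul_add (100 : ℝ≥0∞), ← enorm_w _ (inv_pos.2 ht).le]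
        refine (enorm_add_le _ _).trans (add_le_add_left ((enorm_add_le _ _).trans
          (add_le_add ((enorm_add_le _ _).trans (add_le_add (bd _ _ ?_) (bd _ _ ?_))) (bd _ _ ?_))) _)
        · rw [abs_mul, abs_of_pos (inv_pos.2 ht), inv_mul_le_iff₀ ht]
          linarith [b1 hτ]
        · rw [abs_mul, abs_of_nonneg (by positivity)]
          nlinarith [mul_le_mul_of_nonneg_left h2 hwx]
        · rw [abs_mul, abs_of_nonneg hwx]
          nlinarith [mul_le_mul_of_nonneg_left h2 hwx]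
    _ ≤ c * G t := by
        rw [lintegral_add_left' ((((hmi t _).fun_add (hmi t _)).fun_add (hmi t _)).const_mul _),
          lintegral_const_mul' _ _ (by simp), lintegral_add_left' ((hmi t _).fun_add (hmi t _)),
          lintegral_add_left' (hmi t _), hGi, hGi, hGi,
          lintegral_const_mul' _ _ ENNReal.ofReal_ne_top, hc, add_mul, mul_assoc, add_mul, add_mul]
        exact add_le_add_right r1 _

lemma gen_int {u : ℝ → ℂ} (hu : AEStronglyMeasurable u volume)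
    (h : ∫⁻ x, ENNReal.ofReal (w x) * ‖u x‖ₑ ≠ ∞) : Integrable (gen u) :=
  (((intw hu h (1, 0)).const_mul 4).add (intw hu h (0, 1))).sub ((intw0 hu h).const_mul 10)

lemma gen_eq {u h : L 1} (H : Gen u h) : h =ᵐ[volume] gen u := by
  have hi := memLp_one_iff_integrable.2 (gen_int (Lp.aestronglyMeasurable u) (dom H))
  have := tendsto_nhds_unique H (gen_of (dom H) hi.coeFn_toLp)
  rw [this]; exact hi.coeFn_toLp

end Pool.Agent.H.MP_62a15f_an
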