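import Pool.Agent.H.MP_62a15f_an.E

open MeasureTheory Filter Topology Set
open scoped ENNReal NNReal Nat ComplexOrder

namespace Pool.Agent.H.MP_62a15f_an

lemma ex_mul (c : ℝ → ℝ) (hc : Measurable c) {C : ℝ} (h0 : ∀ v, 0 ≤ v → 0 ≤ c v)
    (h1 : ∀ v, 0 ≤ v → c v ≤ C) (i : ℕ × ℕ) :
    ∃ T : L 1 →L[ℂ] L 1, ‖T‖ ≤ C * (ρ i)⁻¹ ∧
      ∀ f, T f =ᵐ[volume] fun x => (c (w x) : ℂ) * f (ρ i * x) := by
  have hC : 0 ≤ C := (h0 0 le_rfl).trans (h1 0 le_rfl)
  have hρ := inv_pos.2 (ρ_pos i)
  refine mk_clm 1 (fun f x => (c (w x) : ℂ) * f (ρ i * x)) ⟨C * (ρ i)⁻¹, by positivity⟩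
    (fun f => ?_) (fun f => ?_) (fun f g => ?_) (fun z f => ?_)
  · exact (Complex.measurable_ofReal.comp (hc.comp w_meas)).aestronglyMeasurable.mul
      ((Lp.aestronglyMeasurable f).comp_quasiMeasurePreserving (qmp (ρ_pos i)))
  · rw [eLpNorm_one_eq_lintegral_enorm, eLpNorm_one_eq_lintegral_enorm]
    simp only [enorm_w _ (h0 _ (w_nonneg _))]
    rw [lint_w i (fun v => ENNReal.ofReal (c v)) (fun x => ‖f x‖ₑ),
      ← lintegral_const_mul' _ _ ENNReal.coe_ne_top]
    refine lintegral_mono fun x => ?_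
    rw [← mul_assoc, ← ENNReal.ofReal_mul hρ.le, ← ENNReal.ofReal_coe_nnreal]
    refine mul_le_mul_left (ENNReal.ofReal_le_ofReal ?_) _
    change _ ≤ C * (ρ i)⁻¹
    nlinarith [h1 _ (w_nonneg x)]
  · filter_upwards [ae_dil (Lp.coeFn_add f g)] with x hx
    simp only [hx, Pi.add_apply, mul_add]
  · filter_upwards [ae_dil (Lp.coeFn_smul z f)] with x hx
    simp only [hx, Pi.smul_apply, smul_eq_mul]; ring

lemma int_w (i : ℕ × ℕ) (c : ℝ → ℂ) (f : ℝ → ℂ) :
    ∫ x, c (w x) * f (ρ i * x) = (ρ i : ℂ)⁻¹ * ∫ x, c (w x) * f x := by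
  have h := Measure.integral_comp_mul_left (fun x => c (w x) * f x) (ρ i)
  simp only [w_inv] at h
  rw [h, abs_of_pos (inv_pos.2 (ρ_pos i)), Complex.real_smul, Complex.ofReal_inv]

lemma resolvent {l : ℝ} (hl : 0 < l) : ∃ R B : L 1 →L[ℂ] L 1,
    (∀ g, Gen (R g) (l • R g - g)) ∧ (∀ u h, Gen u h → R (l • u - h) = u) ∧
    (∀ g, B g =ᵐ[volume] fun x => ((3 * w x : ℝ) : ℂ) * R g x) ∧ spectralRadius ℂ B = 3 / 5 := by
  set m : ℝ → ℝ := fun v => v / (l + 10 * v) with hm
  set n : ℝ → ℝ := fun v => 1 / (l + 10 * v) with hn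
  have m0 : ∀ v, 0 ≤ v → 0 ≤ m v := fun v hv => by simp only [hm]; positivity
  have m1 : ∀ v, 0 ≤ v → m v ≤ 1 / 10 := fun v hv => by
    simp only [hm]; rw [div_le_iff₀ (by positivity)]; linarith
  have n0 : ∀ v, 0 ≤ v → 0 ≤ n v := fun v hv => by simp only [hn]; positivity
  have n1 : ∀ v, 0 ≤ v → n v ≤ 1 / l := fun v hv =>
    one_div_le_one_div_of_le hl (by linarith)
  have mm : Measurable m := by fun_prop
  have nm : Measurable n := by fun_prop
  have emn : ∀ x, (m (w x) : ℂ) = w x * n (w x) := fun x => by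
    simp only [hm, hn]; push_cast; ring
  have eln : ∀ x, ((l : ℂ) + 10 * w x) * n (w x) = 1 := fun x => by
    have : (l + 10 * w x) * n (w x) = 1 := by
      have := w_nonneg x
      simp only [hn]; field_simp
    exact_mod_cast this
  obtain ⟨T1, hT1, e1⟩ := ex_mul m mm m0 m1 (1, 0)
  obtain ⟨T2, hT2, e2⟩ := ex_mul m mm m0 m1 (0, 1)
  obtain ⟨T0, hT0, e0⟩ := ex_mul m mm m0 m1 (0, 0)
  obtain ⟨N, -, eN⟩ := ex_mul n nm n0 n1 (0, 0)
  simp only [ρ00, one_mul, inv_one, mul_one] at hT0 e0 eN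
  rw [ρ10] at hT1; rw [ρ01] at hT2
  set K : L 1 →L[ℂ] L 1 := (4 : ℂ) • T1 + T2 with hK
  have nK : ‖K‖ ≤ 1 / 2 := by
    refine (norm_add_le _ _).trans ?_
    rw [norm_smul]; norm_num at hT1 hT2 ⊢; linarith
  have eK : ∀ v : L 1, ⇑(v - K v) =ᵐ[volume] fun x =>
      v x - (4 * (m (w x) * v (ρ (1, 0) * x)) + m (w x) * v (ρ (0, 1) * x)) := fun v => by
    filter_upwards [Lp.coeFn_sub v (K v), Lp.coeFn_add ((4 : ℂ) • T1 v) (T2 v),
      Lp.coeFn_smul (4 : ℂ) (T1 v), e1 v, e2 v] with x h1 h2 h3 h4 h5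
    rw [h1, Pi.sub_apply]
    have : K v = (4 : ℂ) • T1 v + T2 v := rfl
    rw [this, h2, Pi.add_apply, h3, Pi.smul_apply, h4, h5, smul_eq_mul]
  set Q := (Units.oneSub K (by linarith))
  set I : L 1 →L[ℂ] L 1 := ↑Q⁻¹
  have i1 : ∀ g, I g - K (I g) = g := fun g => by
    have : ((Q : L 1 →L[ℂ] L 1) * I) g = g := by rw [Units.mul_inv]; rfl
    exact this
  have i2 : ∀ v, I (v - K v) = v := fun v => by
    have : (I * (Q : L 1 →L[ℂ] L 1)) v = v := by rw [Units.inv_mul]; rfl
    exact this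
  have nI : ∀ g, ‖I g‖ ≤ 2 * ‖g‖ := fun g => by
    have h1 := ContinuousLinearMap.le_of_opNorm_le _ nK (I g)
    have h2 := norm_sub_norm_le (I g) (K (I g))
    rw [i1] at h2; linarith
  set B : L 1 →L[ℂ] L 1 := (3 : ℂ) • T0 * I with hB
  have eB : ∀ g, B g =ᵐ[volume] fun x => 3 * (m (w x) * I g x) := fun g => by
    filter_upwards [Lp.coeFn_smul (3 : ℂ) (T0 (I g)), e0 (I g)] with x h1 h2
    have : B g = (3 : ℂ) • T0 (I g) := rfl
    rw [this, h1, Pi.smul_apply, h2, smul_eq_mul]
  refine ⟨N * I, B, fun g => ?_, fun u h H => ?_, fun g => ?_, le_antisymm ?_ ?_⟩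
  · change Gen (N (I g)) (l • N (I g) - g)
    refine gen_of ?_ ?_
    · refine ne_top_of_le_ne_top (b := ‖T0 (I g)‖ₑ) enorm_ne_top (le_of_eq ?_)
      rw [en1]
      refine lintegral_congr_ae ?_
      filter_upwards [e0 (I g), eN (I g)] with x h1 h2
      rw [h1, h2, ← enorm_w _ (w_nonneg x), emn, mul_assoc]
    · filter_upwards [Lp.coeFn_sub (l • N (I g)) g, Lp.coeFn_smul l (N (I g)), eN (I g),
        ae_dil (eN (I g)), eK (I g)] with x h1 h2 h3 h4 h5
      rw [i1] at h5
      rw [h1, Pi.sub_apply, h2, Pi.smul_apply, h5, gen, h4, h4, h3, w_inv, w_inv, emn,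
        Complex.real_smul]
      linear_combination (I g x) * eln x
  · have hi := memLp_one_iff_integrable.2 (((L1.integrable_coeFn u).const_mul (l : ℂ)).add
      ((intw0 (Lp.aestronglyMeasurable u) (dom H)).const_mul 10))
    have hv := hi.coeFn_toLp
    set v := hi.toLp
    have h1 : l • u - h = v - K v := by
      refine Lp.ext ?_
      filter_upwards [Lp.coeFn_sub (l • u) h, Lp.coeFn_smul l u, gen_eq H, eK v, hv, ae_dil hv]
        with x h1 h2 h3 h4 h5 h6
      rw [h1, Pi.sub_apply, h2, Pi.smul_apply, h3, h4, h5, h6, h6, gen, Complex.real_smul, emn]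
      simp only [Pi.add_apply, w_inv]
      linear_combination (4 * w x * u (ρ (1, 0) * x) + w x * u (ρ (0, 1) * x)) * eln x
    change N (I (l • u - h)) = u
    rw [h1, i2]
    refine Lp.ext ?_
    filter_upwards [eN v, hv] with x h1 h2
    rw [h1, h2, Pi.add_apply]
    linear_combination (u x) * eln x
  · filter_upwards [eB g, eN (I g)] with x h1 h2
    change _ = _ * N (I g) x
    rw [h1, h2, emn]; push_cast; ring
  · have nB : ‖B‖ ≤ 3 / 5 := by
      refine ContinuousLinearMap.opNorm_le_bound _ (by norm_num) fun g => ?_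
      have : B g = (3 : ℂ) • T0 (I g) := rfl
      rw [this, norm_smul]
      have h1 := ContinuousLinearMap.le_of_opNorm_le _ hT0 (I g)
      have h2 := nI g
      norm_num at h1 ⊢; linarith
    refine iSup₂_le fun k hk => ?_
    have h1 := spectrum.norm_le_norm_mul_of_mem hk
    have h2 : ‖(1 : L 1 →L[ℂ] L 1)‖ ≤ 1 := ContinuousLinearMap.norm_id_le
    have h3 : ‖k‖ ≤ 3 / 5 := h1.trans (by nlinarith [norm_nonneg B])
    have h4 : ‖k‖₊ ≤ 3 / 5 := by exact_mod_cast h3
    calc (‖k‖₊ : ℝ≥0∞) ≤ ((3 / 5 : ℝ≥0) : ℝ≥0∞) := by exact_mod_cast h4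
      _ = 3 / 5 := by rw [ENNReal.coe_div (by norm_num)]; norm_num
  · have hmem : (3 / 5 : ℂ) ∈ spectrum ℂ B := by
      rw [spectrum.mem_iff]
      rintro ⟨S, hS⟩
      set S' : L 1 →L[ℂ] L 1 := ↑S⁻¹
      have hS' : ∀ g, (3 / 5 : ℂ) • S' g - B (S' g) = g := fun g => by
        have : ((S : L 1 →L[ℂ] L 1) * S') g = g := by rw [Units.mul_inv]; rfl
        rw [hS] at this
        exact this
      obtain ⟨ε, hε0, hε1, hε⟩ : ∃ ε : ℝ, 0 < ε ∧ ε < 1 ∧ l * ‖S'‖ * ε < 1 := by
        have := norm_nonneg S'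
        refine ⟨1 / (2 + l * ‖S'‖), by positivity, ?_, ?_⟩
        · rw [div_lt_one (by positivity)]; nlinarith [mul_nonneg hl.le this]
        · rw [mul_one_div, div_lt_one (by positivity)]; linarith
      set J := Ioo 1 ((4:ℝ) ^ ε)
      have hJ : volume J ≠ ∞ := by simp [J]
      have hJ0 : 0 < volume.real J := by
        simp only [J, Real.volume_real_Ioo]
        exact lt_max_of_lt_left (sub_pos.2 (Real.one_lt_rpow (by norm_num) hε0))
      set g : L 1 := indicatorConstLp 1 measurableSet_Ioo hJ (1 : ℂ)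
      have ng : ‖g‖ = volume.real J := by
        rw [norm_indicatorConstLp (by norm_num) (by norm_num)]; simp [J]
      set χ : ℝ → ℂ := (Ici ε⁻¹).indicator 1
      have hχ : ∀ f : ℝ → ℂ, Integrable f → Integrable fun x => χ (w x) * f x := fun f hf =>
        hf.bdd_mul (c := 1) ((measurable_one.indicator measurableSet_Ici).comp
          w_meas).aestronglyMeasurable (ae_of_all _ fun x => by
            simp only [χ, indicator]; split_ifs <;> simp)
      set v := I (S' g)
      have j1 : ∫ x, χ (w x) * g x = volume.real J := by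
        rw [integral_congr_ae (g := J.indicator fun _ => (1 : ℂ)), integral_indicator measurableSet_Ioo]
        · simp [J]
        · filter_upwards [indicatorConstLp_coeFn (p := 1) (hs := measurableSet_Ioo) (hμs := hJ)
            (c := (1 : ℂ))] with x hx
          rw [hx]
          by_cases h : x ∈ J
          · simp only [χ, indicator_of_mem (mem_Ici.2 (w_big hε1 h)), Pi.one_apply, one_mul]
            rfl
          · rw [indicator_of_notMem h, mul_zero]
      have k0 := hχ _ (L1.integrable_coeFn v)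
      have k1 := (hχ _ (L1.integrable_coeFn (T1 v))).congr (g := fun x =>
        (χ (w x) * m (w x)) * v (ρ (1, 0) * x)) (by
          filter_upwards [e1 v] with x hx; rw [hx, mul_assoc])
      have k2 := (hχ _ (L1.integrable_coeFn (T2 v))).congr (g := fun x =>
        (χ (w x) * m (w x)) * v (ρ (0, 1) * x)) (by
          filter_upwards [e2 v] with x hx; rw [hx, mul_assoc])
      have k3 := (hχ _ (L1.integrable_coeFn (T0 v))).congr (g := fun x =>
        (χ (w x) * m (w x)) * v x) (by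
          filter_upwards [e0 v] with x hx; rw [hx, mul_assoc])
      have j2 : ∫ x, χ (w x) * g x = 3 / 5 * ∫ x, (χ (w x) * (l * n (w x))) * v x := by
        have a1 : ∫ x, χ (w x) * g x = ∫ x, (3 / 5 * (χ (w x) * v x -
            (4 * ((χ (w x) * m (w x)) * v (ρ (1, 0) * x)) + (χ (w x) * m (w x)) * v (ρ (0, 1) * x))) -
            3 * ((χ (w x) * m (w x)) * v x)) := by
          refine integral_congr_ae ?_
          filter_upwards [Lp.coeFn_sub ((3 / 5 : ℂ) • S' g) (B (S' g)),
            Lp.coeFn_smul (3 / 5 : ℂ) (S' g), eB (S' g), eK v] with x h1 h2 h3 h4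
          rw [i1] at h4
          rw [hS'] at h1
          rw [h1, Pi.sub_apply, h2, Pi.smul_apply, h3, h4, smul_eq_mul]; ring
        have a2 : ∫ x, (χ (w x) * (l * n (w x))) * v x =
            ∫ x, (χ (w x) * v x - 10 * ((χ (w x) * m (w x)) * v x)) :=
          integral_congr_ae (ae_of_all _ fun x => by
            simp only [emn]; linear_combination (χ (w x) * v x) * eln x)
        have k4 : Integrable fun x => 4 * ((χ (w x) * m (w x)) * v (ρ (1, 0) * x)) +
            (χ (w x) * m (w x)) * v (ρ (0, 1) * x) := (k1.const_mul 4).add k2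
        have k5 : Integrable fun x => χ (w x) * v x - (4 * ((χ (w x) * m (w x)) * v (ρ (1, 0) * x)) +
            (χ (w x) * m (w x)) * v (ρ (0, 1) * x)) := k0.sub k4
        rw [a1, a2, integral_sub (k5.const_mul _) (k3.const_mul _),
          integral_const_mul, integral_sub k0 k4,
          integral_add (k1.const_mul 4) k2, integral_const_mul, integral_const_mul,
          int_w (1, 0) (fun v => χ v * m v), int_w (0, 1) (fun v => χ v * m v),
          integral_sub k0 (k3.const_mul _), integral_const_mul, ρ10, ρ01]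
        push_cast; ring
      have j3 : ‖∫ x, (χ (w x) * (l * n (w x))) * v x‖ ≤ l * ε / 10 * ‖v‖ := by
        rw [L1.norm_eq_integral_norm, ← integral_const_mul]
        refine norm_integral_le_of_norm_le ((L1.integrable_coeFn v).norm.const_mul _)
          (ae_of_all _ fun x => ?_)
        rw [norm_mul]
        refine mul_le_mul_of_nonneg_right ?_ (norm_nonneg _)
        simp only [χ, indicator]
        split_ifs with h
        · rw [Pi.one_apply, one_mul, norm_mul, Complex.norm_real, Complex.norm_real,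
            Real.norm_of_nonneg hl.le, Real.norm_of_nonneg (n0 _ (w_nonneg x)), mul_div_assoc]
          refine mul_le_mul_of_nonneg_left ?_ hl.le
          have h' : ε⁻¹ ≤ w x := h
          have h2 : 1 ≤ ε * w x := by rwa [inv_le_iff_one_le_mul₀' hε0] at h'
          have := w_nonneg x
          simp only [hn]
          rw [div_le_div_iff₀ (by positivity) (by norm_num)]
          nlinarith [mul_pos hε0 hl]
        · simp only [zero_mul, norm_zero]; positivity
      have j4 : ‖v‖ ≤ 2 * (‖S'‖ * volume.real J) := by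
        rw [← ng]
        exact (nI _).trans (by linarith [S'.le_opNorm g])
      have j5 : volume.real J ≤ 3 / 5 * (l * ε / 10 * (2 * (‖S'‖ * volume.real J))) := by
        have := congrArg norm (j1.symm.trans j2)
        rw [norm_mul, Complex.norm_real, Real.norm_of_nonneg hJ0.le] at this
        have h35 : ‖(3 / 5 : ℂ)‖ = 3 / 5 := by norm_num
        rw [h35] at this
        have := mul_le_mul_of_nonneg_left j4 (show 0 ≤ l * ε / 10 by positivity)
        linarith
      nlinarith
    refine le_iSup₂_of_le (3 / 5 : ℂ) hmem (le_of_eq ?_)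
    have : ‖(3 / 5 : ℂ)‖₊ = 3 / 5 := by ext; norm_num
    rw [this, ENNReal.coe_div (by norm_num)]; norm_num

lemma form_le (f : L 2) {M : ℝ≥0∞}
    (h : ∀ t : ℝ, 0 < t → ENNReal.ofReal (t⁻¹ * (inner ℂ f (f - U 2 t f)).re) ≤ M) :
    ∫⁻ x, ENNReal.ofReal (3 * w x) * ‖f x‖ₑ ^ 2 ≤ ENNReal.ofReal (1 / 2) * M := by
  have h1 := fatou 6 (g := fun x => ‖f x‖ₑ ^ 2) ((Lp.aestronglyMeasurable f).enorm.pow_const 2)
    (fun _ => ENNReal.pow_ne_top enorm_ne_top) (M := M) (by
      filter_upwards [self_mem_nhdsWithin] with t ht using (form_bd ht f).trans (h t ht))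
  refine le_trans (le_of_eq ?_) (mul_le_mul_right h1 _)
  rw [← lintegral_const_mul' _ _ ENNReal.ofReal_ne_top]
  refine lintegral_congr fun x => ?_
  rw [← mul_assoc, ← ENNReal.ofReal_mul (by norm_num)]
  congr 2; ring

end Pool.Agent.H.MP_62a15f_an
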